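import Pool.Agent.Y748.SR.Stm7

/-! Project SR, part 4, job POI: Poisson summation. -/

set_option autoImplicit false

namespace Pool.Agent.Y658.SR

open Finset Filter Topology MeasureTheory Pool.Agent.Y748.SR
open scoped FourierTransform

/-- integrals of functions supported in `[-1, 1]` -/
theorem int_supp {g : ℝ → ℝ} (hg : Continuous g) {κ A : ℝ} (hκ : κ ≤ 1) (hA : 1 ≤ A)
    (h : ∀ x, κ ≤ |x| → g x = 0) : ∫ x in (-A)..A, g x = ∫ x in (-1 : ℝ)..1, g x := by
  have hi : ∀ a b : ℝ, IntervalIntegrable g volume a b := fun a b => hg.intervalIntegrable a b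
  have h1 : ∫ x in (-A)..(-1), g x = 0 := by
    apply intervalIntegral.integral_zero_ae
    refine Filter.Eventually.of_forall fun x hx => ?_
    rw [Set.uIoc_of_le (by linarith)] at hx
    apply h
    rw [abs_of_nonpos (by linarith [hx.2])]
    linarith [hx.2]
  have h2 : ∫ x in (1 : ℝ)..A, g x = 0 := by
    apply intervalIntegral.integral_zero_ae
    refine Filter.Eventually.of_forall fun x hx => ?_
    rw [Set.uIoc_of_le hA] at hx
    apply h
    rw [abs_of_nonneg (by linarith [hx.1])]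
    linarith [hx.1]
  rw [← intervalIntegral.integral_add_adjacent_intervals (hi (-A) (-1)) (hi (-1) A),
    ← intervalIntegral.integral_add_adjacent_intervals (hi (-1) 1) (hi 1 A), h1, h2, zero_add,
    add_zero]

theorem int_scale {R : ℝ → ℝ} {κ : ℝ} (hκ : κ < 1) (hR : TFn R κ) {M : ℝ} (hM : 3 ≤ M) (w : ℝ) :
    ∫ θ in (-(1 / 2) : ℝ)..(1 / 2), R (M * θ) * Real.cos (2 * Real.pi * w * θ) =
      1 / M * rr R (w / M) := by
  have hM0 : M ≠ 0 := by linarith
  have h1 := intervalIntegral.integral_comp_mul_left (a := -(1 / 2)) (b := 1 / 2)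
    (fun α => R α * Real.cos (2 * Real.pi * (w / M) * α)) hM0
  have h2 : ∀ θ : ℝ, R (M * θ) * Real.cos (2 * Real.pi * (w / M) * (M * θ)) =
      R (M * θ) * Real.cos (2 * Real.pi * w * θ) := by
    intro θ
    congr 2
    field_simp
  simp only [h2] at h1
  rw [h1, smul_eq_mul]
  have h3 : M * (-(1 / 2)) = -(M / 2) := by ring
  have h4 : M * (1 / 2) = M / 2 := by ring
  rw [h3, h4, ← one_div]
  congr 1
  refine int_supp (κ := κ) ?_ hκ.le (by linarith) ?_
  · have := hR.cont
    fun_prop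
  · intro x hx
    rw [hR.supp x hx, zero_mul]

theorem summable_rr {R : ℝ → ℝ} {κ : ℝ} (hR : TFn R κ) {M : ℝ} (hM : 0 < M) :
    Summable fun d : ℤ => rr R (d / M) := by
  obtain ⟨K, hK⟩ := hR.decay
  have hg : Summable fun d : ℤ => |K| * M ^ 2 * (1 / (d : ℝ) ^ 2) :=
    (Real.summable_one_div_int_pow.2 one_lt_two).mul_left _
  refine Summable.of_norm_bounded_eventually hg ?_
  have hfin : {d : ℤ | ¬ ‖rr R (d / M)‖ ≤ |K| * M ^ 2 * (1 / (d : ℝ) ^ 2)} ⊆ {0} := by
    intro d hd
    by_contra h0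
    apply hd
    have hd0 : (d : ℝ) ≠ 0 := by
      intro h
      exact h0 (by exact_mod_cast h)
    have hd2 : 0 < (d : ℝ) ^ 2 := by positivity
    rw [Real.norm_eq_abs]
    calc |rr R (d / M)| ≤ K / (1 + (d / M) ^ 2) := hK _
      _ ≤ |K| / (1 + (d / M) ^ 2) := by
          apply div_le_div_of_nonneg_right (le_abs_self K)
          positivity
      _ ≤ |K| / ((d / M) ^ 2) := by
          apply div_le_div_of_nonneg_left (abs_nonneg K)
          · positivity
          · linarith
      _ = |K| * M ^ 2 * (1 / (d : ℝ) ^ 2) := by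
          field_simp
  exact (Set.finite_singleton (0 : ℤ)).subset hfin

/-- the Fourier transform -/
theorem fourier_R {R : ℝ → ℝ} {κ : ℝ} (hκ : κ < 1) (hR : TFn R κ) {M : ℝ} (hM : 3 ≤ M) (w : ℝ) :
    𝓕 (fun y : ℝ => ((R (M * y) : ℝ) : ℂ)) w = ((1 / M * rr R (w / M) : ℝ) : ℂ) := by
  rw [Real.fourier_real_eq_integral_exp_smul]
  have hsupp : ∀ v : ℝ, 1 / 2 ≤ |v| → R (M * v) = 0 := by
    intro v hv
    apply hR.supp
    rw [abs_mul, abs_of_pos (by linarith)]
    nlinarith
  set g : ℝ → ℂ := fun v => Complex.exp (↑(-2 * Real.pi * v * w) * Complex.I) •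
    ((R (M * v) : ℝ) : ℂ) with hg
  have hgc : Continuous g := by
    have := hR.cont
    rw [hg]
    fun_prop
  have h1 : ∫ v, g v = ∫ v in (-(1 / 2) : ℝ)..(1 / 2), g v := by
    rw [← intervalIntegral.integral_eq_integral_of_support_subset (a := -(1 / 2)) (b := 1 / 2)]
    intro v hv
    by_contra hcon
    apply hv
    have h2 : 1 / 2 ≤ |v| := by
      rw [Set.mem_Ioc, not_and_or] at hcon
      rcases hcon with h | h
      · rw [le_abs]
        right
        linarith
      · rw [le_abs]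
        left
        linarith
    simp only [hg, hsupp v h2, Complex.ofReal_zero, smul_zero]
  rw [h1, ← int_scale hκ hR hM w]
  have h2 : ∫ v in (-(1 / 2) : ℝ)..(1 / 2), g v = ∫ v in (-(1 / 2) : ℝ)..(1 / 2), g (-v) := by
    rw [intervalIntegral.integral_comp_neg]
    simp
  have h3 : ∀ v, g v + g (-v) = 2 * ((R (M * v) * Real.cos (2 * Real.pi * w * v) : ℝ) : ℂ) := by
    intro v
    simp only [hg, smul_eq_mul]
    have e1 : R (M * -v) = R (M * v) := by
      rw [mul_neg, hR.even]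
    rw [e1, ← add_mul, Complex.exp_mul_I, Complex.exp_mul_I, ← Complex.ofReal_cos,
      ← Complex.ofReal_cos, ← Complex.ofReal_sin, ← Complex.ofReal_sin]
    have e2 : -2 * Real.pi * v * w = -(2 * Real.pi * w * v) := by ring
    have e3 : -2 * Real.pi * -v * w = 2 * Real.pi * w * v := by ring
    rw [e2, e3, Real.cos_neg, Real.sin_neg]
    push_cast
    ring
  have h4 : 2 * ∫ v in (-(1 / 2) : ℝ)..(1 / 2), g v =
      2 * ∫ v in (-(1 / 2) : ℝ)..(1 / 2), ((R (M * v) * Real.cos (2 * Real.pi * w * v) : ℝ) : ℂ) := by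
    calc 2 * ∫ v in (-(1 / 2) : ℝ)..(1 / 2), g v
        = (∫ v in (-(1 / 2) : ℝ)..(1 / 2), g v) + ∫ v in (-(1 / 2) : ℝ)..(1 / 2), g (-v) := by
          rw [← h2, two_mul]
      _ = ∫ v in (-(1 / 2) : ℝ)..(1 / 2), (g v + g (-v)) := by
          have hgc' : Continuous fun v => g (-v) := hgc.comp continuous_neg
          exact (intervalIntegral.integral_add (hgc.intervalIntegrable _ _)
            (hgc'.intervalIntegrable _ _)).symm
      _ = ∫ v in (-(1 / 2) : ℝ)..(1 / 2),
            2 * ((R (M * v) * Real.cos (2 * Real.pi * w * v) : ℝ) : ℂ) :=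
          intervalIntegral.integral_congr fun v _ => h3 v
      _ = _ := intervalIntegral.integral_const_mul _ _
  have h5 := mul_left_cancel₀ two_ne_zero h4
  rw [h5, intervalIntegral.integral_ofReal]

theorem t_POI : S_POI := by
  intro R κ _ hκ1 hR M hM θ hθ
  have hM3 : (3 : ℝ) ≤ M := by exact_mod_cast hM
  have hM0 : (0 : ℝ) < M := by linarith
  have hsum := summable_rr hR hM0
  let f : ℝ → ℂ := fun y => ((R (M * y) : ℝ) : ℂ)
  have hfc : Continuous f := by
    have := hR.cont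
    show Continuous fun y : ℝ => ((R (M * y) : ℝ) : ℂ)
    fun_prop
  have hsupp : ∀ v : ℝ, 1 / 2 ≤ |v| → R (M * v) = 0 := by
    intro v hv
    apply hR.supp
    rw [abs_mul, abs_of_pos (by linarith)]
    nlinarith
  have hF : ∀ w : ℝ, 𝓕 f w = ((1 / M * rr R (w / M) : ℝ) : ℂ) := fourier_R hκ1 hR hM3
  have hO : Asymptotics.IsBigO (cocompact ℝ) f fun x : ℝ => |x| ^ (-(2 : ℝ)) := by
    refine Asymptotics.IsBigO.of_bound 0 ?_
    rw [← Metric.cobounded_eq_cocompact]
    have h1 : ∀ᶠ x : ℝ in Bornology.cobounded ℝ, (1 / 2 : ℝ) ≤ ‖x‖ :=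
      (tendsto_norm_cobounded_atTop).eventually_ge_atTop _
    filter_upwards [h1] with x hx
    have h2 : f x = 0 := by
      show ((R (M * x) : ℝ) : ℂ) = 0
      rw [hsupp x hx, Complex.ofReal_zero]
    rw [h2]
    simp
  have hSF : Summable fun n : ℤ => 𝓕 f n := by
    simp only [hF]
    have h1 : Summable fun n : ℤ => 1 / (M : ℝ) * rr R ((n : ℝ) / M) := hsum.mul_left _
    exact Complex.summable_ofReal.2 h1
  have hP := Real.tsum_eq_tsum_fourier_of_rpow_decay_of_summable hfc one_lt_two hO hSF θ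
  have hL : ∑' n : ℤ, f (θ + n) = ((R (M * θ) : ℝ) : ℂ) := by
    rw [tsum_eq_single 0]
    · simp [f]
    · intro n hn
      show ((R (M * (θ + n)) : ℝ) : ℂ) = 0
      rw [hsupp, Complex.ofReal_zero]
      have h1 : (1 : ℝ) ≤ |(n : ℝ)| := by
        have := Int.one_le_abs hn
        exact_mod_cast this
      have h2 := abs_sub_abs_le_abs_sub (n : ℝ) (-θ)
      rw [sub_neg_eq_add, abs_neg] at h2
      rw [add_comm]
      linarith
  rw [hL] at hP
  have hT : Summable fun n : ℤ => 𝓕 f n * fourier n (θ : UnitAddCircle) := by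
    refine Summable.of_norm ?_
    have h1 : ∀ n : ℤ, ‖𝓕 f n * fourier n (θ : UnitAddCircle)‖ = ‖𝓕 f (n : ℝ)‖ := by
      intro n
      rw [norm_mul, fourier_apply, Circle.norm_coe, mul_one]
    simp only [h1]
    exact hSF.norm
  have hre := congrArg Complex.re hP
  rw [Complex.ofReal_re, Complex.re_tsum hT] at hre
  rw [hre, ← tsum_mul_left]
  refine tsum_congr fun n => ?_
  rw [hF, Complex.re_ofReal_mul, fourier_coe_apply]
  have h1 : (2 * (Real.pi : ℂ) * Complex.I * (n : ℂ) * ((θ : ℝ) : ℂ) / ((1 : ℝ) : ℂ)) =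
      ((2 * Real.pi * n * θ : ℝ) : ℂ) * Complex.I := by
    push_cast
    ring
  rw [h1, Complex.exp_ofReal_mul_I_re]
  ring

end Pool.Agent.Y658.SR
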