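import Pool.Agent.Y658.SR.Poi

/-! Project SR, part 4, job TOEP: positive symbols. -/

set_option autoImplicit false

namespace Pool.Agent.Y658.SR

open Finset Filter Topology MeasureTheory Pool.Agent.Y748.SR

/-- the number of pairs with a given difference -/
def cnt (n : ℕ) (a : ℤ) : ℕ :=
  ((Finset.range n ×ˢ Finset.range n).filter fun p => (p.1 : ℤ) - p.2 = a).card

theorem cnt_le (n : ℕ) (a : ℤ) : cnt n a ≤ n := by
  unfold cnt
  calc _ ≤ (Finset.range n).card := by
        apply Finset.card_le_card_of_injOn (fun p => p.1)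
        · intro p hp
          rw [Finset.mem_coe, Finset.mem_filter, Finset.mem_product] at hp
          exact hp.1.1
        · intro p hp q hq h
          rw [Finset.mem_coe, Finset.mem_filter, Finset.mem_product] at hp hq
          have h1 : p.1 = q.1 := h
          have h2 : p.2 = q.2 := by
            have := hp.2
            have := hq.2
            rw [← h1] at this
            omega
          exact Prod.ext h1 h2
    _ = n := Finset.card_range n

theorem cnt_ge (n : ℕ) (a : ℤ) : (n : ℤ) - |a| ≤ cnt n a := by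
  obtain ⟨k, hk⟩ := Int.eq_nat_or_neg a
  have habs : |a| = k := by
    rcases hk with h | h <;> rw [h]
    · exact abs_of_nonneg (by omega)
    · rw [abs_neg]
      exact abs_of_nonneg (by omega)
  rw [habs]
  by_cases hnk : n ≤ k
  · have : (0 : ℤ) ≤ cnt n a := by positivity
    omega
  · have h1 : (Finset.range (n - k)).card ≤ cnt n a := by
      unfold cnt
      rcases hk with h | h
      · apply Finset.card_le_card_of_injOn (fun j => (j + k, j))
        · intro j hj
          rw [Finset.mem_coe, Finset.mem_range] at hj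
          rw [Finset.mem_coe, Finset.mem_filter, Finset.mem_product, Finset.mem_range,
            Finset.mem_range]
          refine ⟨⟨by show j + k < n; omega, by show j < n; omega⟩, ?_⟩
          show ((j + k : ℕ) : ℤ) - (j : ℕ) = a
          push_cast
          omega
        · intro j _ j' _ hj
          exact (Prod.ext_iff.1 hj).2
      · apply Finset.card_le_card_of_injOn (fun j => (j, j + k))
        · intro j hj
          rw [Finset.mem_coe, Finset.mem_range] at hj
          rw [Finset.mem_coe, Finset.mem_filter, Finset.mem_product, Finset.mem_range,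
            Finset.mem_range]
          refine ⟨⟨by show j < n; omega, by show j + k < n; omega⟩, ?_⟩
          show ((j : ℕ) : ℤ) - (j + k : ℕ) = a
          push_cast
          omega
        · intro j _ j' _ hj
          exact (Prod.ext_iff.1 hj).1
    rw [Finset.card_range] at h1
    omega

theorem sum_diff (h : ℤ → ℝ) (n : ℕ) :
    ∑ i ∈ Finset.range n, ∑ j ∈ Finset.range n, h ((i : ℤ) - j) = ∑' a : ℤ, (cnt n a : ℝ) * h a := by
  classical
  have hmap : ∀ p ∈ Finset.range n ×ˢ Finset.range n,
      (p.1 : ℤ) - p.2 ∈ Finset.Icc (-(n : ℤ)) n := by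
    intro p hp
    rw [Finset.mem_product, Finset.mem_range, Finset.mem_range] at hp
    rw [Finset.mem_Icc]
    omega
  rw [tsum_eq_sum (s := Finset.Icc (-(n : ℤ)) n)]
  · rw [← Finset.sum_product' (s := Finset.range n) (t := Finset.range n)
      (f := fun i j : ℕ => h ((i : ℤ) - j)), ← Finset.sum_fiberwise_of_maps_to hmap]
    refine Finset.sum_congr rfl fun a _ => ?_
    have h1 : ∀ p ∈ (Finset.range n ×ˢ Finset.range n).filter (fun p => (p.1 : ℤ) - p.2 = a),
        h ((p.1 : ℤ) - p.2) = h a := by
      intro p hp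
      rw [(Finset.mem_filter.1 hp).2]
    rw [Finset.sum_congr rfl h1, Finset.sum_const, nsmul_eq_mul]
    rfl
  · intro a ha
    have h1 : cnt n a = 0 := by
      unfold cnt
      rw [Finset.card_eq_zero, Finset.filter_eq_empty_iff]
      intro p hp h2
      exact ha (h2 ▸ hmap p hp)
    rw [h1, Nat.cast_zero, zero_mul]

/-- Cesàro means -/
theorem cesaro (h : ℤ → ℝ) (hs : Summable h) :
    Tendsto (fun n : ℕ => (1 / n : ℝ) *
      ∑ i ∈ Finset.range n, ∑ j ∈ Finset.range n, h ((i : ℤ) - j)) atTop (𝓝 (∑' a, h a)) := by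
  have h1 : (fun n : ℕ => (1 / n : ℝ) *
      ∑ i ∈ Finset.range n, ∑ j ∈ Finset.range n, h ((i : ℤ) - j)) =
      fun n : ℕ => ∑' a : ℤ, (1 / n : ℝ) * ((cnt n a : ℝ) * h a) := by
    funext n
    rw [sum_diff, tsum_mul_left]
  rw [h1]
  refine tendsto_tsum_of_dominated_convergence (bound := fun a => |h a|) hs.abs ?_ ?_
  · intro a
    have h2 : Tendsto (fun n : ℕ => (1 / n : ℝ) * (cnt n a : ℝ)) atTop (𝓝 1) := by
      have h3 : Tendsto (fun n : ℕ => 1 - |(a : ℝ)| * (1 / (n : ℝ))) atTop (𝓝 (1 - |(a : ℝ)| * 0)) :=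
        tendsto_const_nhds.sub (tendsto_one_div_atTop_nhds_zero_nat.const_mul _)
      rw [mul_zero, sub_zero] at h3
      refine tendsto_of_tendsto_of_tendsto_of_le_of_le' h3 tendsto_const_nhds ?_ ?_
      · filter_upwards [eventually_ge_atTop 1] with n hn
        have hn0 : (0 : ℝ) < n := by exact_mod_cast hn
        have h4 := cnt_ge n a
        have h5 : (n : ℝ) - |(a : ℝ)| ≤ (cnt n a : ℝ) := by
          exact_mod_cast h4
        calc 1 - |(a : ℝ)| * (1 / (n : ℝ)) = (1 / n : ℝ) * (n - |(a : ℝ)|) := by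
              field_simp
          _ ≤ _ := mul_le_mul_of_nonneg_left h5 (by positivity)
      · filter_upwards [eventually_ge_atTop 1] with n hn
        have hn0 : (0 : ℝ) < n := by exact_mod_cast hn
        have h4 : (cnt n a : ℝ) ≤ n := by exact_mod_cast cnt_le n a
        calc (1 / n : ℝ) * (cnt n a : ℝ) ≤ (1 / n : ℝ) * n :=
              mul_le_mul_of_nonneg_left h4 (by positivity)
          _ = 1 := by field_simp
    have h3 := h2.mul_const (h a)
    rw [one_mul] at h3
    refine h3.congr fun n => ?_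
    ring
  · filter_upwards [eventually_ge_atTop 1] with n hn a
    have hn0 : (0 : ℝ) < n := by exact_mod_cast hn
    have h4 : (cnt n a : ℝ) ≤ n := by exact_mod_cast cnt_le n a
    rw [Real.norm_eq_abs, ← mul_assoc, abs_mul, abs_of_nonneg (by positivity)]
    calc (1 / n : ℝ) * (cnt n a : ℝ) * |h a| ≤ (1 / n : ℝ) * n * |h a| := by
          apply mul_le_mul_of_nonneg_right _ (abs_nonneg _)
          exact mul_le_mul_of_nonneg_left h4 (by positivity)
      _ = |h a| := by field_simp

/-! ### integrals of cosines -/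

theorem int_cos (b : ℤ) : ∫ θ in (-(1 / 2) : ℝ)..(1 / 2), Real.cos (2 * Real.pi * b * θ) =
    if b = 0 then 1 else 0 := by
  by_cases hb : b = 0
  · rw [if_pos hb, hb]
    simp
    norm_num
  · rw [if_neg hb]
    have hb0 : (b : ℝ) ≠ 0 := by exact_mod_cast hb
    have hc : 2 * Real.pi * (b : ℝ) ≠ 0 := by
      have := Real.pi_ne_zero
      positivity
    have h1 := intervalIntegral.integral_comp_mul_left (a := -(1 / 2)) (b := 1 / 2)
      (fun x => Real.cos x) hc
    rw [h1, integral_cos]
    have h2 : 2 * Real.pi * (b : ℝ) * (1 / 2) = b * Real.pi := by ring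
    have h3 : 2 * Real.pi * (b : ℝ) * (-(1 / 2)) = -(b * Real.pi) := by ring
    rw [h2, h3, Real.sin_neg, Real.sin_int_mul_pi]
    simp

theorem int_cos2 (k a : ℤ) :
    ∫ θ in (-(1 / 2) : ℝ)..(1 / 2), Real.cos (2 * Real.pi * k * θ) * Real.cos (2 * Real.pi * a * θ) =
      (if a = k then 1 / 2 else 0) + (if a = -k then 1 / 2 else 0) := by
  have h1 : ∀ θ : ℝ, Real.cos (2 * Real.pi * k * θ) * Real.cos (2 * Real.pi * a * θ) =
      1 / 2 * Real.cos (2 * Real.pi * ((k - a : ℤ) : ℝ) * θ) +
      1 / 2 * Real.cos (2 * Real.pi * ((k + a : ℤ) : ℝ) * θ) := by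
    intro θ
    have e1 : 2 * Real.pi * ((k - a : ℤ) : ℝ) * θ = 2 * Real.pi * k * θ - 2 * Real.pi * a * θ := by
      push_cast
      ring
    have e2 : 2 * Real.pi * ((k + a : ℤ) : ℝ) * θ = 2 * Real.pi * k * θ + 2 * Real.pi * a * θ := by
      push_cast
      ring
    rw [e1, e2, Real.cos_sub, Real.cos_add]
    ring
  simp only [h1]
  have hc : ∀ c : ℝ, Continuous fun θ : ℝ => 1 / 2 * Real.cos (2 * Real.pi * c * θ) := by
    intro c
    fun_prop
  rw [intervalIntegral.integral_add ((hc _).intervalIntegrable _ _)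
    ((hc _).intervalIntegrable _ _), intervalIntegral.integral_const_mul,
    intervalIntegral.integral_const_mul, int_cos, int_cos]
  congr 1
  · by_cases h : a = k
    · rw [if_pos h, if_pos (by omega)]
      norm_num
    · rw [if_neg h, if_neg (by omega)]
      norm_num
  · by_cases h : a = -k
    · rw [if_pos h, if_pos (by omega)]
      norm_num
    · rw [if_neg h, if_neg (by omega)]
      norm_num

theorem t_TOEP' : S_TOEP := by
  intro G hG M hM R κ _ hκ1 hR p0 p1 k hpos
  have hM3 : (3 : ℝ) ≤ M := by exact_mod_cast hM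
  have hM0 : (0 : ℝ) < M := by linarith
  have hsum := summable_rr hR hM0
  let P : ℝ → ℝ := fun θ => p0 + p1 * Real.cos (2 * Real.pi * k * θ) + R (M * θ)
  have hPc : Continuous P := by
    have := hR.cont
    show Continuous fun θ : ℝ => p0 + p1 * Real.cos (2 * Real.pi * k * θ) + R (M * θ)
    fun_prop
  have hP0 : ∀ θ, 0 ≤ P θ := by
    intro θ
    have h := hpos (M * θ)
    have e : 2 * Real.pi * ((k : ℝ) / M) * (M * θ) = 2 * Real.pi * k * θ := by
      field_simp
    rw [e] at h
    exact h
  let Φ : ℤ → ℝ := fun a => ∫ θ in (-(1 / 2) : ℝ)..(1 / 2), P θ * Real.cos (2 * Real.pi * a * θ)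
  have hΦ : ∀ a, Φ a = (if a = 0 then p0 else 0) + (if a = k then p1 / 2 else 0) +
      (if a = -k then p1 / 2 else 0) + 1 / M * rr R (a / M) := by
    intro a
    have hRc := hR.cont
    have h1 : ∀ θ, P θ * Real.cos (2 * Real.pi * a * θ) =
        p0 * Real.cos (2 * Real.pi * a * θ) +
        p1 * (Real.cos (2 * Real.pi * k * θ) * Real.cos (2 * Real.pi * a * θ)) +
        R (M * θ) * Real.cos (2 * Real.pi * a * θ) := by
      intro θ
      show (p0 + p1 * Real.cos (2 * Real.pi * k * θ) + R (M * θ)) * _ = _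
      ring
    have c1 : Continuous fun θ : ℝ => p0 * Real.cos (2 * Real.pi * a * θ) := by fun_prop
    have c2 : Continuous fun θ : ℝ =>
      p1 * (Real.cos (2 * Real.pi * k * θ) * Real.cos (2 * Real.pi * a * θ)) := by fun_prop
    have c3 : Continuous fun θ : ℝ => R (M * θ) * Real.cos (2 * Real.pi * a * θ) := by fun_prop
    have c12 : Continuous fun θ : ℝ => p0 * Real.cos (2 * Real.pi * a * θ) +
      p1 * (Real.cos (2 * Real.pi * k * θ) * Real.cos (2 * Real.pi * a * θ)) := by fun_prop
    show ∫ θ in (-(1 / 2) : ℝ)..(1 / 2), P θ * Real.cos (2 * Real.pi * a * θ) = _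
    simp only [h1]
    rw [intervalIntegral.integral_add (c12.intervalIntegrable _ _)
      (c3.intervalIntegrable _ _), intervalIntegral.integral_add (c1.intervalIntegrable _ _)
      (c2.intervalIntegrable _ _), intervalIntegral.integral_const_mul,
      intervalIntegral.integral_const_mul, int_cos, int_cos2, int_scale hκ1 hR hM3]
    congr 1
    rw [mul_add, ← add_assoc]
    congr 1
    · congr 1
      · split_ifs <;> ring
      · split_ifs <;> ring
    · split_ifs <;> ring
  -- nonnegativity of the sums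
  have hnn : ∀ n : ℕ, 0 ≤ ∑ i ∈ Finset.range n, ∑ j ∈ Finset.range n,
      G ((i : ℤ) - j) * Φ ((i : ℤ) - j) := by
    intro n
    have h1 : ∑ i ∈ Finset.range n, ∑ j ∈ Finset.range n, G ((i : ℤ) - j) * Φ ((i : ℤ) - j) =
        ∫ θ in (-(1 / 2) : ℝ)..(1 / 2), ∑ i ∈ Finset.range n, ∑ j ∈ Finset.range n,
          G ((i : ℤ) - j) * (P θ * Real.cos (2 * Real.pi * (((i : ℤ) - j : ℤ) : ℝ) * θ)) := by
      have hc : ∀ i j : ℕ, Continuous fun θ : ℝ =>
          G ((i : ℤ) - j) * (P θ * Real.cos (2 * Real.pi * (((i : ℤ) - j : ℤ) : ℝ) * θ)) := by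
        intro i j
        fun_prop
      rw [intervalIntegral.integral_finsetSum]
      · refine Finset.sum_congr rfl fun i _ => ?_
        rw [intervalIntegral.integral_finsetSum]
        · refine Finset.sum_congr rfl fun j _ => ?_
          rw [intervalIntegral.integral_const_mul]
        · intro j _
          exact (hc i j).intervalIntegrable _ _
      · intro i _
        exact (continuous_finsetSum _ fun j _ => hc i j).intervalIntegrable _ _
    rw [h1]
    refine intervalIntegral.integral_nonneg (by norm_num) fun θ _ => ?_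
    have h2 : ∑ i ∈ Finset.range n, ∑ j ∈ Finset.range n,
          G ((i : ℤ) - j) * (P θ * Real.cos (2 * Real.pi * (((i : ℤ) - j : ℤ) : ℝ) * θ)) =
        P θ * ((∑ i : Fin n, ∑ j : Fin n, Real.cos (2 * Real.pi * (i : ℕ) * θ) *
          Real.cos (2 * Real.pi * (j : ℕ) * θ) * G (((i : ℕ) : ℤ) - ((j : ℕ) : ℤ))) +
          ∑ i : Fin n, ∑ j : Fin n, Real.sin (2 * Real.pi * (i : ℕ) * θ) *
          Real.sin (2 * Real.pi * (j : ℕ) * θ) * G (((i : ℕ) : ℤ) - ((j : ℕ) : ℤ))) := by
      rw [Finset.sum_range, ← Finset.sum_add_distrib, Finset.mul_sum]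
      refine Finset.sum_congr rfl fun i _ => ?_
      rw [Finset.sum_range, ← Finset.sum_add_distrib, Finset.mul_sum]
      refine Finset.sum_congr rfl fun j _ => ?_
      have e1 : 2 * Real.pi * ((((i : ℕ) : ℤ) - ((j : ℕ) : ℤ) : ℤ) : ℝ) * θ =
          2 * Real.pi * (i : ℕ) * θ - 2 * Real.pi * (j : ℕ) * θ := by
        push_cast
        ring
      rw [e1, Real.cos_sub]
      ring
    rw [h2]
    exact mul_nonneg (hP0 θ) (add_nonneg (hG.pd n (fun i => ((i : ℕ) : ℤ)) _)
      (hG.pd n (fun i => ((i : ℕ) : ℤ)) _))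
  -- the sum
  have hGs : Summable fun a : ℤ => rr R (a / M) * G a := by
    refine Summable.of_norm_bounded hsum.norm fun a => ?_
    rw [norm_mul, Real.norm_eq_abs (G a)]
    calc ‖rr R ((a : ℝ) / M)‖ * |G a| ≤ ‖rr R ((a : ℝ) / M)‖ * 1 :=
          mul_le_mul_of_nonneg_left (hG.le a) (norm_nonneg _)
      _ = _ := mul_one _
  have hH : HasSum (fun a : ℤ => G a * Φ a) (p0 + p1 / 2 * G k + p1 / 2 * G (-k) +
      1 / M * ∑' d : ℤ, rr R (d / M) * G d) := by
    have h1 := hasSum_ite_eq (0 : ℤ) p0
    have h2 := hasSum_ite_eq k (p1 / 2 * G k)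
    have h3 := hasSum_ite_eq (-k) (p1 / 2 * G (-k))
    have h4 := hGs.hasSum.mul_left (1 / (M : ℝ))
    have h5 := ((h1.add h2).add h3).add h4
    have h6 : (fun a : ℤ => G a * Φ a) = fun a : ℤ => (if a = 0 then p0 else 0) +
        (if a = k then p1 / 2 * G k else 0) + (if a = -k then p1 / 2 * G (-k) else 0) +
        1 / M * (rr R (a / M) * G a) := by
      funext a
      rw [hΦ]
      have e1 : G a * (if a = 0 then p0 else 0) = if a = 0 then p0 else 0 := by
        split_ifs with h
        · rw [h, hG.zero, one_mul]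
        · rw [mul_zero]
      have e2 : G a * (if a = k then p1 / 2 else 0) = if a = k then p1 / 2 * G k else 0 := by
        split_ifs with h
        · rw [h, mul_comm]
        · rw [mul_zero]
      have e3 : G a * (if a = -k then p1 / 2 else 0) = if a = -k then p1 / 2 * G (-k) else 0 := by
        split_ifs with h
        · rw [h, mul_comm]
        · rw [mul_zero]
      rw [mul_add, mul_add, mul_add, e1, e2, e3]
      ring
    rw [h6]
    exact h5
  have hlim := cesaro _ hH.summable
  rw [hH.tsum_eq, hG.even] at hlim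
  have hge := ge_of_tendsto' hlim fun n => mul_nonneg (by positivity) (hnn n)
  linarith

theorem t_TOEP : S_POI → S_TOEP := fun _ => t_TOEP'

end Pool.Agent.Y658.SR
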