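import Pool.Agent.Y748.SR.Stm

/-!
Project SR: Rayleigh inequalities for the lattice polynomials.
-/

open Finset Filter Topology

set_option autoImplicit false

namespace Pool.Agent.Y658.SR

open Pool.Agent.Y748.SR

section

variable {X I : Type} [DecidableEq X] [DecidableEq I] (p : X → I) (q : ℤ → I)

/-- sum over the subsets of a union of two images -/
theorem sum_union (hp : Function.Injective p) (hq : Function.Injective q)
    (hpq : ∀ x n, p x ≠ q n) (Y : Finset X) (R : Finset ℤ) (F : Finset I → ℝ) :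
    ∑ B ∈ (Y.image p ∪ R.image q).powerset, F B =
      ∑ B ∈ Y.powerset, ∑ S ∈ R.powerset, F (B.image p ∪ S.image q) := by
  rw [← Finset.sum_product']
  symm
  refine Finset.sum_nbij' (fun z => z.1.image p ∪ z.2.image q)
    (fun T => (Y.filter fun x => p x ∈ T, R.filter fun n => q n ∈ T)) ?_ ?_ ?_ ?_ ?_
  · rintro ⟨B, S⟩ hz
    simp only [Finset.mem_product, Finset.mem_powerset] at hz
    rw [Finset.mem_powerset]
    exact Finset.union_subset_union (Finset.image_subset_image hz.1)
      (Finset.image_subset_image hz.2)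
  · intro T _
    simp only [Finset.mem_product, Finset.mem_powerset]
    exact ⟨Finset.filter_subset _ _, Finset.filter_subset _ _⟩
  · rintro ⟨B, S⟩ hz
    simp only [Finset.mem_product, Finset.mem_powerset] at hz
    have h1 : (Y.filter fun x => p x ∈ B.image p ∪ S.image q) = B := by
      ext x
      simp only [Finset.mem_filter, Finset.mem_union, Finset.mem_image]
      constructor
      · rintro ⟨_, ⟨x', hx', h⟩ | ⟨n, _, h⟩⟩
        · exact hp h ▸ hx'
        · exact absurd h.symm (hpq _ _)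
      · intro hx
        exact ⟨hz.1 hx, Or.inl ⟨x, hx, rfl⟩⟩
    have h2 : (R.filter fun n => q n ∈ B.image p ∪ S.image q) = S := by
      ext n
      simp only [Finset.mem_filter, Finset.mem_union, Finset.mem_image]
      constructor
      · rintro ⟨_, ⟨x', _, h⟩ | ⟨m, hm, h⟩⟩
        · exact absurd h (hpq _ _)
        · exact hq h ▸ hm
      · intro hn
        exact ⟨hz.2 hn, Or.inr ⟨n, hn, rfl⟩⟩
    exact Prod.ext h1 h2
  · intro T hT
    rw [Finset.mem_powerset] at hT
    ext t
    simp only [Finset.mem_union, Finset.mem_image, Finset.mem_filter]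
    constructor
    · rintro (⟨x, ⟨_, h⟩, rfl⟩ | ⟨n, ⟨_, h⟩, rfl⟩)
      · exact h
      · exact h
    · intro ht
      have h1 := hT ht
      simp only [Finset.mem_union, Finset.mem_image] at h1
      rcases h1 with ⟨x, hx, rfl⟩ | ⟨n, hn, rfl⟩
      · exact Or.inl ⟨x, ⟨hx, ht⟩, rfl⟩
      · exact Or.inr ⟨n, ⟨hn, ht⟩, rfl⟩
  · rintro ⟨B, S⟩ _
    rfl

variable (r : Finset I → ℝ)

/-- the generating function of the lattice polynomials -/
theorem pw_hh (hp : Function.Injective p) (hq : Function.Injective q)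
    (hpq : ∀ x n, p x ≠ q n) (C Y : Finset X) (Q R : Finset ℤ) (y : ℤ → ℝ) (w : X → ℝ)
    (W : I → ℝ) (hW1 : ∀ x, W (p x) = w x) (hW2 : ∀ n, W (q n) = (1 - y n) / y n)
    (hy : ∀ n ∈ R, y n ≠ 0) :
    PW (fun A => hh (fun A S => r (A.image p ∪ S.image q)) A Q R y) C Y w =
      (∏ n ∈ R, y n) * PW r (C.image p ∪ Q.image q) (Y.image p ∪ R.image q) W := by
  unfold PW
  rw [sum_union p q hp hq hpq, Finset.mul_sum]
  refine Finset.sum_congr rfl fun B _ => ?_
  unfold hh
  rw [Finset.sum_mul, Finset.mul_sum]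
  refine Finset.sum_congr rfl fun S hS => ?_
  have hSR := Finset.mem_powerset.1 hS
  have h1 : (C ∪ B).image p ∪ (Q ∪ S).image q =
      C.image p ∪ Q.image q ∪ (B.image p ∪ S.image q) := by
    rw [Finset.image_union, Finset.image_union]
    ext t
    simp only [Finset.mem_union]
    tauto
  have h2 : ∏ i ∈ B.image p ∪ S.image q, W i =
      (∏ x ∈ B, w x) * ∏ n ∈ S, ((1 - y n) / y n) := by
    have hd : Disjoint (B.image p) (S.image q) := by
      rw [Finset.disjoint_left]
      intro t h1 h2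
      rw [Finset.mem_image] at h1 h2
      obtain ⟨x, _, rfl⟩ := h1
      obtain ⟨n, _, h⟩ := h2
      exact hpq x n h.symm
    rw [Finset.prod_union hd, Finset.prod_image (fun a _ b _ h => hp h),
      Finset.prod_image (fun a _ b _ h => hq h)]
    congr 1
    · exact Finset.prod_congr rfl fun x _ => hW1 x
    · exact Finset.prod_congr rfl fun n _ => hW2 n
  have h3 : ∏ n ∈ R, y n = (∏ n ∈ R \ S, y n) * ∏ n ∈ S, y n :=
    (Finset.prod_sdiff hSR).symm
  have h4 : (∏ n ∈ S, y n) * ∏ n ∈ S, ((1 - y n) / y n) = ∏ n ∈ S, (1 - y n) := by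
    rw [← Finset.prod_mul_distrib]
    refine Finset.prod_congr rfl fun n hn => ?_
    have := hy n (hSR hn)
    field_simp
  show r ((C ∪ B).image p ∪ (Q ∪ S).image q) * _ * _ = _
  rw [h1, h2, h3, ← h4]
  ring

theorem hh_pw {g : Finset X → Finset ℤ → ℝ} (A : Finset X) (Q R : Finset ℤ) (y : ℤ → ℝ)
    (w : X → ℝ) : PW (fun A => hh g A Q R y) A ∅ w = hh g A Q R y := by
  unfold PW
  simp

/-- perturbation of the weights -/
theorem tendsto_shift (g : Finset X → Finset ℤ → ℝ) (A : Finset X) (Q R : Finset ℤ)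
    (y : ℤ → ℝ) : Tendsto (fun ε : ℝ => hh g A Q R (fun n => y n + ε)) (𝓝[≠] 0)
      (𝓝 (hh g A Q R y)) := by
  have h1 : Continuous fun ε : ℝ => hh g A Q R (fun n => y n + ε) := by
    unfold hh
    fun_prop
  have h2 := (h1.tendsto 0).mono_left (nhdsWithin_le_nhds (s := {(0 : ℝ)}ᶜ))
  simpa using h2

theorem tendsto_shift_pw (g : Finset X → Finset ℤ → ℝ) (C Y : Finset X) (Q R : Finset ℤ)
    (y : ℤ → ℝ) (w : X → ℝ) :
    Tendsto (fun ε : ℝ => PW (fun A => hh g A Q R (fun n => y n + ε)) C Y w) (𝓝[≠] 0)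
      (𝓝 (PW (fun A => hh g A Q R y) C Y w)) := by
  unfold PW
  refine tendsto_finsetSum _ fun B _ => ?_
  exact (tendsto_shift g _ Q R y).mul_const _

theorem eventually_ne (R : Finset ℤ) (y : ℤ → ℝ) :
    ∀ᶠ ε : ℝ in 𝓝[≠] 0, ∀ n ∈ R, y n + ε ≠ 0 := by
  rw [Filter.eventually_all_finset]
  intro n _
  by_cases h : y n = 0
  · filter_upwards [self_mem_nhdsWithin] with ε hε
    rw [h, zero_add]
    exact hε
  · have h1 : Tendsto (fun ε : ℝ => y n + ε) (𝓝[≠] 0) (𝓝 (y n)) := by
      have h2 : Continuous fun ε : ℝ => y n + ε := by fun_prop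
      have h3 := (h2.tendsto 0).mono_left (nhdsWithin_le_nhds (s := {(0 : ℝ)}ᶜ))
      simpa using h3
    exact h1.eventually_ne h

end

theorem t_HH : S_HH := by
  intro X I _ _ r p q hr hp hq hpq
  have hWex : ∀ (w : X → ℝ) (y : ℤ → ℝ), ∃ W : I → ℝ, (∀ x, W (p x) = w x) ∧
      ∀ n, W (q n) = (1 - y n) / y n := by
    intro w y
    refine ⟨Function.extend p w (Function.extend q (fun n => (1 - y n) / y n) 0), ?_, ?_⟩
    · intro x
      rw [hp.extend_apply]
    · intro n
      rw [Function.extend_apply' _ _ _ (by rintro ⟨x, hx⟩; exact hpq x n hx), hq.extend_apply]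
  have hpm : ∀ (i : X) (C : Finset X) (Q : Finset ℤ), i ∉ C → p i ∉ C.image p ∪ Q.image q := by
    intro i C Q hi h
    simp only [Finset.mem_union, Finset.mem_image] at h
    rcases h with ⟨x, hx, h⟩ | ⟨n, _, h⟩
    · exact hi (hp h ▸ hx)
    · exact hpq _ _ h.symm
  have hqm : ∀ (n : ℤ) (C : Finset X) (Q : Finset ℤ), n ∉ Q → q n ∉ C.image p ∪ Q.image q := by
    intro n C Q hn h
    simp only [Finset.mem_union, Finset.mem_image] at h
    rcases h with ⟨x, _, h⟩ | ⟨m, hm, h⟩
    · exact hpq _ _ h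
    · exact hn (hq h ▸ hm)
  have hdis : ∀ (C Y : Finset X) (Q R : Finset ℤ), Disjoint C Y → Disjoint Q R →
      Disjoint (C.image p ∪ Q.image q) (Y.image p ∪ R.image q) := by
    intro C Y Q R h1 h2
    rw [Finset.disjoint_left] at *
    intro t ht ht'
    simp only [Finset.mem_union, Finset.mem_image] at ht ht'
    rcases ht with ⟨x, hx, rfl⟩ | ⟨n, hn, rfl⟩
    · rcases ht' with ⟨x', hx', h⟩ | ⟨n, _, h⟩
      · exact h1 hx (hp h ▸ hx')
      · exact hpq _ _ h.symm
    · rcases ht' with ⟨x', _, h⟩ | ⟨n', hn', h⟩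
      · exact hpq _ _ h
      · exact h2 hn (hq h ▸ hn')
  constructor
  · intro Q R y hQR C Y i j w hij hiC hjC hiY hjY hCY
    -- nonzero weights
    have key : ∀ y : ℤ → ℝ, (∀ n ∈ R, y n ≠ 0) →
        RayI (fun A => hh (fun A S => r (A.image p ∪ S.image q)) A Q R y) C Y i j w := by
      intro y hy
      obtain ⟨W, hW1, hW2⟩ := hWex w y
      unfold RayI
      rw [pw_hh p q r hp hq hpq _ _ _ _ y w W hW1 hW2 hy,
        pw_hh p q r hp hq hpq _ _ _ _ y w W hW1 hW2 hy,
        pw_hh p q r hp hq hpq _ _ _ _ y w W hW1 hW2 hy,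
        pw_hh p q r hp hq hpq _ _ _ _ y w W hW1 hW2 hy]
      have h1 := hr (C.image p ∪ Q.image q) (Y.image p ∪ R.image q) (p i) (p j) W (hp.ne hij)
        (hpm i C Q hiC) (hpm j C Q hjC) (hpm i Y R hiY) (hpm j Y R hjY) (hdis C Y Q R hCY hQR)
      unfold RayI at h1
      simp only [Finset.image_insert, Finset.insert_union]
      have h2 : 0 ≤ (∏ n ∈ R, y n) ^ 2 := sq_nonneg _
      nlinarith [mul_le_mul_of_nonneg_left h1 h2]
    unfold RayI
    have t1 := (tendsto_shift_pw (fun A S => r (A.image p ∪ S.image q)) C Y Q R y w).mul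
      (tendsto_shift_pw (fun A S => r (A.image p ∪ S.image q)) (insert i (insert j C)) Y Q R y w)
    have t2 := (tendsto_shift_pw (fun A S => r (A.image p ∪ S.image q)) (insert i C) Y Q R y
      w).mul (tendsto_shift_pw (fun A S => r (A.image p ∪ S.image q)) (insert j C) Y Q R y w)
    refine le_of_tendsto_of_tendsto t1 t2 ?_
    filter_upwards [eventually_ne R y] with ε hε
    exact key _ hε
  · intro C i Q R n y hiC hQR hnQ hnR
    have key : ∀ y : ℤ → ℝ, (∀ n ∈ R, y n ≠ 0) →
        hh (fun A S => r (A.image p ∪ S.image q)) C Q R y *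
            hh (fun A S => r (A.image p ∪ S.image q)) (insert i C) (insert n Q) R y ≤
          hh (fun A S => r (A.image p ∪ S.image q)) (insert i C) Q R y *
            hh (fun A S => r (A.image p ∪ S.image q)) C (insert n Q) R y := by
      intro y hy
      obtain ⟨W, hW1, hW2⟩ := hWex 0 y
      rw [← hh_pw C Q R y 0, ← hh_pw (insert i C) (insert n Q) R y 0,
        ← hh_pw (insert i C) Q R y 0, ← hh_pw C (insert n Q) R y 0,
        pw_hh p q r hp hq hpq _ _ _ _ y 0 W hW1 hW2 hy,
        pw_hh p q r hp hq hpq _ _ _ _ y 0 W hW1 hW2 hy,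
        pw_hh p q r hp hq hpq _ _ _ _ y 0 W hW1 hW2 hy,
        pw_hh p q r hp hq hpq _ _ _ _ y 0 W hW1 hW2 hy]
      have h1 := hr (C.image p ∪ Q.image q) ((∅ : Finset X).image p ∪ R.image q) (p i) (q n) W
        (hpq i n) (hpm i C Q hiC) (hqm n C Q hnQ) (hpm i ∅ R (Finset.notMem_empty _))
        (hqm n ∅ R hnR) (hdis C ∅ Q R (Finset.disjoint_empty_right _) hQR)
      unfold RayI at h1
      have e1 : (insert i C).image p ∪ (insert n Q).image q =
          insert (p i) (insert (q n) (C.image p ∪ Q.image q)) := by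
        simp only [Finset.image_insert, Finset.insert_union, Finset.union_insert]
        exact Finset.insert_comm _ _ _
      have e2 : (insert i C).image p ∪ Q.image q = insert (p i) (C.image p ∪ Q.image q) := by
        simp only [Finset.image_insert, Finset.insert_union]
      have e3 : C.image p ∪ (insert n Q).image q = insert (q n) (C.image p ∪ Q.image q) := by
        simp only [Finset.image_insert, Finset.union_insert]
      rw [e1, e2, e3]
      have h2 : 0 ≤ (∏ n ∈ R, y n) ^ 2 := sq_nonneg _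
      nlinarith [mul_le_mul_of_nonneg_left h1 h2]
    have t1 := (tendsto_shift (fun A S => r (A.image p ∪ S.image q)) C Q R y).mul
      (tendsto_shift (fun A S => r (A.image p ∪ S.image q)) (insert i C) (insert n Q) R y)
    have t2 := (tendsto_shift (fun A S => r (A.image p ∪ S.image q)) (insert i C) Q R y).mul
      (tendsto_shift (fun A S => r (A.image p ∪ S.image q)) C (insert n Q) R y)
    refine le_of_tendsto_of_tendsto t1 t2 ?_
    filter_upwards [eventually_ne R y] with ε hε
    exact key _ hε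

end Pool.Agent.Y658.SR
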