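import Pool.Agent.Y748.SR.Stm

/-!
Project SR: positivity of the lattice polynomials outside the unit cube.
-/

open Finset Filter Topology

set_option autoImplicit false

namespace Pool.Agent.Y658.SR

open Pool.Agent.Y748.SR

/-- splitting off one variable -/
theorem hh_split {X : Type} (g : Finset X → Finset ℤ → ℝ) (A : Finset X) (Q R : Finset ℤ)
    (y : ℤ → ℝ) (n : ℤ) (hn : n ∉ R) :
    hh g A Q (insert n R) y = y n * hh g A Q R y + (1 - y n) * hh g A (insert n Q) R y := by
  unfold hh
  rw [Finset.sum_powerset_insert hn, Finset.mul_sum, Finset.mul_sum]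
  congr 1
  · refine Finset.sum_congr rfl fun S hS => ?_
    have hnS : n ∉ S := fun h => hn (Finset.mem_powerset.1 hS h)
    have h1 : insert n R \ S = insert n (R \ S) := Finset.insert_sdiff_of_notMem _ hnS
    have h2 : n ∉ R \ S := fun h => hn (Finset.mem_sdiff.1 h).1
    rw [h1, Finset.prod_insert h2]
    ring
  · refine Finset.sum_congr rfl fun S hS => ?_
    have hnS : n ∉ S := fun h => hn (Finset.mem_powerset.1 hS h)
    have h1 : insert n R \ insert n S = R \ S := by
      ext m
      simp only [Finset.mem_sdiff, Finset.mem_insert]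
      constructor
      · rintro ⟨h1 | h1, h2⟩
        · exact absurd (Or.inl h1) h2
        · exact ⟨h1, fun h => h2 (Or.inr h)⟩
      · rintro ⟨h1, h2⟩
        refine ⟨Or.inr h1, ?_⟩
        rintro (h | h)
        · exact hn (h ▸ h1)
        · exact h2 h
    have h2 : Q ∪ insert n S = insert n Q ∪ S := by
      rw [Finset.union_insert, Finset.insert_union]
    rw [h1, h2, Finset.prod_insert hnS]
    ring

theorem hh_continuous {X : Type} (g : Finset X → Finset ℤ → ℝ) (A : Finset X) (Q R : Finset ℤ)
    (y : ℤ → ℝ) : Continuous fun ε : ℝ => hh g A Q R (fun n => y n + ε) := by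
  unfold hh
  fun_prop

theorem t_POS : S_POS := by
  intro X _ g a hS C i hi hpos
  have key : ∀ (R Q : Finset ℤ) (y : ℤ → ℝ), Disjoint Q R → (∀ n, 0 < y n) →
      0 ≤ hh g (insert i C) Q R y := by
    intro R
    induction R using Finset.strongInduction with
    | H R ih =>
      intro Q y hQR hy
      by_cases hR : ∃ n ∈ R, 1 < y n
      · obtain ⟨n, hnR, hn1⟩ := hR
        have hnR' : n ∉ R.erase n := Finset.notMem_erase n R
        have hins : insert n (R.erase n) = R := Finset.insert_erase hnR
        have hnQ : n ∉ Q := fun h => Finset.disjoint_left.1 hQR h hnR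
        have hd : Disjoint Q (R.erase n) := hQR.mono_right (Finset.erase_subset _ _)
        have hF := hh_split g (insert i C) Q (R.erase n) y n hnR'
        have hH := hh_split g C Q (R.erase n) y n hnR'
        rw [hins] at hF hH
        have h1 := ih (R.erase n) (Finset.erase_ssubset hnR) Q y hd hy
        have h2 := hS.rat C i Q (R.erase n) n y hi hd hnQ hnR'
        have h3 := hpos Q (R.erase n) y hd hy
        have h4 := hpos Q R y hQR hy
        rw [hH] at h4
        rw [hF]
        set F1 := hh g (insert i C) Q (R.erase n) y
        set F0 := hh g (insert i C) (insert n Q) (R.erase n) y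
        set H1 := hh g C Q (R.erase n) y
        set H0 := hh g C (insert n Q) (R.erase n) y
        have h5 : F1 * (y n * H1 + (1 - y n) * H0) ≤ (y n * F1 + (1 - y n) * F0) * H1 := by
          nlinarith
        have h6 : 0 ≤ (y n * F1 + (1 - y n) * F0) * H1 := (mul_nonneg h1 h4.le).trans h5
        exact nonneg_of_mul_nonneg_left h6 h3
      · push Not at hR
        unfold hh
        refine Finset.sum_nonneg fun S hSR => ?_
        refine mul_nonneg (hS.nonneg _ _) (mul_nonneg ?_ ?_)
        · exact Finset.prod_nonneg fun n hn => by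
            have := hR n (Finset.mem_powerset.1 hSR hn)
            linarith
        · exact Finset.prod_nonneg fun n _ => (hy n).le
  intro Q R y hQR hy
  have h1 : Tendsto (fun ε : ℝ => hh g (insert i C) Q R (fun n => y n + ε)) (𝓝[>] 0)
      (𝓝 (hh g (insert i C) Q R y)) := by
    have h2 := ((hh_continuous g (insert i C) Q R y).tendsto 0).mono_left
      (nhdsWithin_le_nhds (s := Set.Ioi 0))
    simpa using h2
  refine ge_of_tendsto h1 ?_
  filter_upwards [self_mem_nhdsWithin] with ε hε
  exact key R Q _ hQR fun n => add_pos_of_nonneg_of_pos (hy n) hε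

end Pool.Agent.Y658.SR
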