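import Pool.Agent.Y748.SR.Stm3

/-!
Project SR: the masses of the larger set.
-/

open Finset Filter Topology

set_option autoImplicit false

namespace Pool.Agent.Y658.SR

open Pool.Agent.Y748.SR

theorem powerset_eq (T : Finset ℤ) : T.powerset = insert T T.ssubsets := by
  rw [Finset.ssubsets, Finset.insert_erase (Finset.mem_powerset_self T)]

theorem notMem_ssubsets (T : Finset ℤ) : T ∉ T.ssubsets := by
  simp [Finset.ssubsets]

/-- Moebius inversion, existence -/
theorem exists_mobius (E : Finset ℤ → ℝ) :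
    ∃ e : Finset ℤ → ℝ, ∀ T, E T = ∑ T1 ∈ T.powerset, e T1 := by
  classical
  let F : (T : Finset ℤ) → ((S : Finset ℤ) → S ⊂ T → ℝ) → ℝ := fun T ih =>
    E T - ∑ x ∈ T.ssubsets.attach, ih x.1 (Finset.mem_ssubsets.1 x.2)
  let e : Finset ℤ → ℝ := fun T => Finset.strongInduction F T
  refine ⟨e, fun T => ?_⟩
  have h1 : e T = E T - ∑ x ∈ T.ssubsets, e x := by
    show Finset.strongInduction F T = _
    rw [Finset.strongInduction_eq, ← Finset.sum_attach T.ssubsets]
  rw [powerset_eq, Finset.sum_insert (notMem_ssubsets T), h1]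
  ring

/-- Moebius inversion, uniqueness -/
theorem mobius_unique (c e : Finset ℤ → ℝ) (R : Finset ℤ)
    (h : ∀ T, T ⊆ R → ∑ T1 ∈ T.powerset, c T1 = ∑ T1 ∈ T.powerset, e T1) :
    ∀ T, T ⊆ R → c T = e T := by
  intro T
  induction T using Finset.strongInduction with
  | H T ih =>
    intro hT
    have h1 := h T hT
    rw [powerset_eq, Finset.sum_insert (notMem_ssubsets T),
      Finset.sum_insert (notMem_ssubsets T)] at h1
    have h3 : ∑ x ∈ T.ssubsets, c x = ∑ x ∈ T.ssubsets, e x :=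
      Finset.sum_congr rfl fun x hx =>
        ih x (Finset.mem_ssubsets.1 hx) ((Finset.mem_ssubsets.1 hx).1.trans hT)
    linarith

theorem coef_eq (hCOEF : S_COEF) (E e : Finset ℤ → ℝ)
    (hE : ∀ T, E T = ∑ T1 ∈ T.powerset, e T1) (T : Finset ℤ) (y : ℤ → ℝ) :
    ∑ S ∈ T.powerset, E (T \ S) * ((∏ n ∈ S, (1 - y n)) * ∏ n ∈ T \ S, y n) =
      ∑ T1 ∈ T.powerset, e T1 * ∏ n ∈ T1, y n := by
  classical
  obtain ⟨c, hc, -⟩ := hCOEF (fun S => E (T \ S)) T
  have hce : ∀ U, U ⊆ T → c U = e U := by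
    apply mobius_unique
    intro U hU
    have h1 := hc (fun n => if n ∈ U then 1 else 0)
    have hL : ∑ S ∈ T.powerset, E (T \ S) *
        ((∏ n ∈ S, (1 - (if n ∈ U then (1 : ℝ) else 0))) *
          ∏ n ∈ T \ S, (if n ∈ U then (1 : ℝ) else 0)) = E U := by
      rw [Finset.sum_eq_single (T \ U)]
      · have e1 : T \ (T \ U) = U := by
          exact Finset.sdiff_sdiff_eq_self hU
        rw [e1]
        have e2 : ∏ n ∈ T \ U, (1 - (if n ∈ U then (1 : ℝ) else 0)) = 1 := by
          apply Finset.prod_eq_one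
          intro n hn
          rw [if_neg (Finset.mem_sdiff.1 hn).2, sub_zero]
        have e3 : ∏ n ∈ U, (if n ∈ U then (1 : ℝ) else 0) = 1 := by
          apply Finset.prod_eq_one
          intro n hn
          rw [if_pos hn]
        rw [e2, e3, mul_one, mul_one]
      · intro S hS hne
        rw [Finset.mem_powerset] at hS
        by_cases hd : ∃ n ∈ S, n ∈ U
        · obtain ⟨n, hn, hnU⟩ := hd
          have e1 : ∏ n ∈ S, (1 - (if n ∈ U then (1 : ℝ) else 0)) = 0 := by
            apply Finset.prod_eq_zero hn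
            rw [if_pos hnU, sub_self]
          rw [e1, zero_mul, mul_zero]
        · by_cases hd' : ∃ n ∈ T \ S, n ∉ U
          · obtain ⟨n, hn, hnU⟩ := hd'
            have e1 : ∏ n ∈ T \ S, (if n ∈ U then (1 : ℝ) else 0) = 0 := by
              apply Finset.prod_eq_zero hn
              rw [if_neg hnU]
            rw [e1, mul_zero, mul_zero]
          · exfalso
            push Not at hd hd'
            apply hne
            ext n
            rw [Finset.mem_sdiff]
            constructor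
            · intro hn
              exact ⟨hS hn, hd n hn⟩
            · rintro ⟨hn, hnU⟩
              by_contra hnS
              exact hnU (hd' n (Finset.mem_sdiff.2 ⟨hn, hnS⟩))
      · intro h
        exact absurd (Finset.mem_powerset.2 Finset.sdiff_subset) h
    have hR : ∑ T1 ∈ T.powerset, c T1 * ∏ n ∈ T1, (if n ∈ U then (1 : ℝ) else 0) =
        ∑ T1 ∈ U.powerset, c T1 := by
      rw [← Finset.sum_subset (Finset.powerset_mono.2 hU)]
      · refine Finset.sum_congr rfl fun T1 hT1 => ?_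
        have e3 : ∏ n ∈ T1, (if n ∈ U then (1 : ℝ) else 0) = 1 := by
          apply Finset.prod_eq_one
          intro n hn
          rw [if_pos (Finset.mem_powerset.1 hT1 hn)]
        rw [e3, mul_one]
      · intro T1 _ hT1
        rw [Finset.mem_powerset, Finset.not_subset] at hT1
        obtain ⟨n, hn, hnU⟩ := hT1
        have e3 : ∏ n ∈ T1, (if n ∈ U then (1 : ℝ) else 0) = 0 := by
          apply Finset.prod_eq_zero hn
          rw [if_neg hnU]
        rw [e3, mul_zero]
    have h2 : E U = ∑ T1 ∈ U.powerset, c T1 := by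
      rw [← hL, ← hR]
      exact h1
    rw [← h2, hE]
  rw [hc y]
  exact Finset.sum_congr rfl fun T1 hT1 => by rw [hce T1 (Finset.mem_powerset.1 hT1)]

theorem eventually_subset (T : Finset ℤ) :
    ∀ᶠ N : ℕ in atTop, T ⊆ Finset.Icc (-(N : ℤ)) N := by
  have h : ∀ᶠ N : ℕ in atTop, ∀ n ∈ T, n ∈ Finset.Icc (-(N : ℤ)) N := by
    rw [Filter.eventually_all_finset]
    intro n _
    filter_upwards [eventually_ge_atTop n.natAbs] with N hN
    rw [Finset.mem_Icc]
    omega
  filter_upwards [h] with N hN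
  exact fun n hn => hN n hn

theorem tendsto_hh {X : Type} (g : Finset X → Finset ℤ → ℝ) (A : Finset X) (E : Finset ℤ → ℝ)
    (hE : ∀ T : Finset ℤ, Tendsto (fun N : ℕ => g A (Finset.Icc (-(N : ℤ)) N \ T)) atTop
      (𝓝 (E T))) (T : Finset ℤ) (y : ℤ → ℝ) :
    Tendsto (fun N : ℕ => hh g A (Finset.Icc (-(N : ℤ)) N \ T) T y) atTop
      (𝓝 (∑ S ∈ T.powerset, E (T \ S) * ((∏ n ∈ S, (1 - y n)) * ∏ n ∈ T \ S, y n))) := by
  unfold hh
  refine tendsto_finsetSum _ fun S hS => ?_
  refine Tendsto.mul_const _ ?_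
  refine (hE (T \ S)).congr' ?_
  filter_upwards [eventually_subset T] with N hN
  congr 1
  have hST := Finset.mem_powerset.1 hS
  ext n
  simp only [Finset.mem_sdiff, Finset.mem_union]
  constructor
  · rintro ⟨h1, h2⟩
    by_cases h3 : n ∈ T
    · right
      by_contra h4
      exact h2 ⟨h3, h4⟩
    · exact Or.inl ⟨h1, h3⟩
  · rintro (⟨h1, h2⟩ | h)
    · exact ⟨h1, fun h3 => h2 h3.1⟩
    · exact ⟨hN (hST h), fun h3 => h3.2 h⟩

/-- a polynomial of degree less than `k` which is `O(t ^ k)` vanishes -/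
theorem poly_zero (P : Polynomial ℝ) (k : ℕ) (hk : P.natDegree < k) (K : ℝ)
    (h : ∀ t : ℝ, 0 < t → 0 ≤ P.eval t ∧ P.eval t ≤ K * t ^ k) : P = 0 := by
  by_contra hP
  obtain ⟨Q, hQ, hQ2⟩ := Polynomial.exists_eq_pow_rootMultiplicity_mul_and_not_dvd P hP 0
  set m := P.rootMultiplicity 0 with hm
  rw [Polynomial.C_0, sub_zero] at hQ hQ2
  have hQ0 : Q.eval 0 ≠ 0 := by
    intro h0
    apply hQ2
    rw [Polynomial.X_dvd_iff, Polynomial.coeff_zero_eq_eval_zero]
    exact h0
  have hmk : m < k := by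
    have h1 : Polynomial.X ^ m ∣ P := ⟨Q, hQ⟩
    have h2 := Polynomial.natDegree_le_of_dvd h1 hP
    rw [Polynomial.natDegree_X_pow] at h2
    omega
  have h3 : ∀ t : ℝ, 0 < t → 0 ≤ Q.eval t ∧ Q.eval t ≤ K * t ^ (k - m) := by
    intro t ht
    obtain ⟨h1, h2⟩ := h t ht
    rw [hQ, Polynomial.eval_mul, Polynomial.eval_pow, Polynomial.eval_X] at h1 h2
    have htm : 0 < t ^ m := pow_pos ht m
    refine ⟨nonneg_of_mul_nonneg_right h1 htm, ?_⟩
    have h4 : t ^ k = t ^ m * t ^ (k - m) := by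
      rw [← pow_add]
      congr 1
      omega
    rw [h4] at h2
    have h5 : t ^ m * Q.eval t ≤ t ^ m * (K * t ^ (k - m)) := by
      calc t ^ m * Q.eval t ≤ K * (t ^ m * t ^ (k - m)) := h2
        _ = t ^ m * (K * t ^ (k - m)) := by ring
    exact le_of_mul_le_mul_left h5 htm
  have h4 : Tendsto (fun t : ℝ => Q.eval t) (𝓝[>] 0) (𝓝 (Q.eval 0)) :=
    (Q.continuous.tendsto 0).mono_left nhdsWithin_le_nhds
  have h5 : Tendsto (fun t : ℝ => K * t ^ (k - m)) (𝓝[>] 0) (𝓝 0) := by
    have h6 : Continuous fun t : ℝ => K * t ^ (k - m) := by fun_prop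
    have h7 := (h6.tendsto 0).mono_left (nhdsWithin_le_nhds (s := Set.Ioi 0))
    rw [zero_pow (by omega), mul_zero] at h7
    exact h7
  have h8 : Q.eval 0 ≤ 0 := by
    refine le_of_tendsto_of_tendsto h4 h5 ?_
    filter_upwards [self_mem_nhdsWithin] with t ht
    exact (h3 t ht).2
  have h9 : 0 ≤ Q.eval 0 := by
    refine ge_of_tendsto h4 ?_
    filter_upwards [self_mem_nhdsWithin] with t ht
    exact (h3 t ht).1
  exact hQ0 (le_antisymm h8 h9)

/-- homogeneous sums -/
theorem sum_homog (e : Finset ℤ → ℝ) (k : ℕ) (he : ∀ T : Finset ℤ, T.card ≠ k → e T = 0)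
    (T : Finset ℤ) (t : ℝ) :
    ∑ T1 ∈ T.powerset, e T1 * ∏ _n ∈ T1, t = t ^ k * ∑ T1 ∈ T.powerset, e T1 := by
  rw [Finset.mul_sum]
  refine Finset.sum_congr rfl fun T1 _ => ?_
  rw [Finset.prod_const]
  by_cases h : T1.card = k
  · rw [h]; ring
  · rw [he T1 h]; ring

theorem pw_empty {X : Type} [DecidableEq X] (f : Finset X → ℝ) (C : Finset X) (w : X → ℝ) :
    PW f C ∅ w = f C := by
  unfold PW
  simp

theorem t_STEPA (_hHOLH : S_HOLH) (hLIM : S_LIM) (hCOEF : S_COEF) (hGROW : S_GROW)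
    (hMONO : S_MONO) (hSTP : S_STP) : S_STEPA := by
  classical
  intro X _ g a B i j e0 e1 e2 hS
  set A : Finset X := insert i (insert j B) with hA
  set k : ℕ := B.card + 2 with hk
  have mono : ∀ S R : Finset ℤ, S ⊆ R → g A R ≤ g A S := by
    intro S R h
    have h1 := hMONO X g a B i j e0 e1 e2 hS S R
    rwa [Finset.union_eq_right.2 h] at h1
  -- the limits
  have hlim : ∀ T : Finset ℤ, ∃ l : ℝ,
      Tendsto (fun N : ℕ => g A (Finset.Icc (-(N : ℤ)) N \ T)) atTop (𝓝 l) := by
    intro T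
    refine ⟨_, tendsto_atTop_ciInf ?_ ⟨0, ?_⟩⟩
    · intro N M hNM
      apply mono
      apply Finset.sdiff_subset_sdiff _ (subset_refl _)
      apply Finset.Icc_subset_Icc
      · omega
      · omega
    · rintro _ ⟨N, rfl⟩
      exact hS.sys.nonneg _ _
  choose E hE using hlim
  have hE0 : ∀ T, 0 ≤ E T := fun T => ge_of_tendsto' (hE T) fun N => hS.sys.nonneg _ _
  have hEmono : ∀ T T' : Finset ℤ, T ⊆ T' → E T ≤ E T' := by
    intro T T' h
    refine le_of_tendsto_of_tendsto' (hE T) (hE T') fun N => ?_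
    exact mono _ _ (Finset.sdiff_subset_sdiff (subset_refl _) h)
  obtain ⟨e, he⟩ := exists_mobius E
  -- the polynomials
  have hp : ∀ (T : Finset ℤ) (t : ℝ), Tendsto
      (fun N : ℕ => hh g A (Finset.Icc (-(N : ℤ)) N \ T) T (fun _ => t)) atTop
      (𝓝 (∑ T1 ∈ T.powerset, e T1 * t ^ T1.card)) := by
    intro T t
    have h1 := tendsto_hh g A E hE T (fun _ => t)
    rw [coef_eq hCOEF E e he T (fun _ => t)] at h1
    simpa only [Finset.prod_const] using h1
  have hp0 : ∀ (T : Finset ℤ) (t : ℝ), 0 < t →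
      0 ≤ ∑ T1 ∈ T.powerset, e T1 * t ^ T1.card := by
    intro T t ht
    refine ge_of_tendsto' (hp T t) fun N => ?_
    exact hSTP X g a B i j e0 e1 e2 hS _ _ _ Finset.sdiff_disjoint fun _ => ht.le
  have hray : ∀ (T : Finset ℤ) (t : ℝ), 0 < t →
      (t ^ B.card * ∑ T1 ∈ T.powerset, e0 T1) * (∑ T1 ∈ T.powerset, e T1 * t ^ T1.card) ≤
        (t ^ (B.card + 1) * ∑ T1 ∈ T.powerset, e1 T1) *
          (t ^ (B.card + 1) * ∑ T1 ∈ T.powerset, e2 T1) := by
    intro T t ht
    have l0 := hLIM X g B e0 hS.h0 T (fun _ => t)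
    have l1 := hLIM X g (insert i B) e1 hS.h1 T (fun _ => t)
    have l2 := hLIM X g (insert j B) e2 hS.h2 T (fun _ => t)
    rw [sum_homog e0 B.card hS.h0.supp] at l0
    rw [sum_homog e1 (B.card + 1) (by
      have h1 := hS.h1.supp
      rwa [Finset.card_insert_of_notMem hS.iB] at h1)] at l1
    rw [sum_homog e2 (B.card + 1) (by
      have h1 := hS.h2.supp
      rwa [Finset.card_insert_of_notMem hS.jB] at h1)] at l2
    refine le_of_tendsto_of_tendsto' (l0.mul (hp T t)) (l1.mul l2) fun N => ?_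
    have h1 := hS.sys.ray (Finset.Icc (-(N : ℤ)) N \ T) T (fun _ => t) Finset.sdiff_disjoint
      B ∅ i j (fun _ => 0) hS.ij hS.iB hS.jB (Finset.notMem_empty _) (Finset.notMem_empty _)
      (Finset.disjoint_empty_right _)
    unfold RayI at h1
    rw [pw_empty, pw_empty, pw_empty, pw_empty] at h1
    exact h1
  -- the upper bound for large sets
  have hup : ∀ T : Finset ℤ, B.card ≤ T.card → ∃ K : ℝ, ∀ t : ℝ, 0 < t →
      ∑ T1 ∈ T.powerset, e T1 * t ^ T1.card ≤ K * t ^ k := by
    intro T hT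
    obtain ⟨U, hUT, hU⟩ := Finset.exists_subset_card_eq hT
    set b0 := ∑ T1 ∈ T.powerset, e0 T1 with hb0
    set b1 := ∑ T1 ∈ T.powerset, e1 T1 with hb1
    set b2 := ∑ T1 ∈ T.powerset, e2 T1 with hb2
    have hb0p : 0 < b0 := by
      refine Finset.sum_pos' (fun T1 _ => hS.h0.nonneg T1) ⟨U, Finset.mem_powerset.2 hUT, ?_⟩
      exact hS.p0 U hU
    refine ⟨b1 * b2 / b0, fun t ht => ?_⟩
    have h1 := hray T t ht
    rw [← hb0, ← hb1, ← hb2] at h1
    set p := ∑ T1 ∈ T.powerset, e T1 * t ^ T1.card with hpdef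
    have htB : 0 < t ^ B.card := pow_pos ht _
    have h2 : t ^ B.card * (b0 * p) ≤ t ^ B.card * (b1 * b2 * t ^ k) := by
      calc t ^ B.card * (b0 * p) = (t ^ B.card * b0) * p := by ring
        _ ≤ (t ^ (B.card + 1) * b1) * (t ^ (B.card + 1) * b2) := h1
        _ = t ^ B.card * (b1 * b2 * t ^ k) := by
            rw [hk, pow_succ, pow_add t B.card 2]; ring
    have h3 := le_of_mul_le_mul_left h2 htB
    rw [div_mul_eq_mul_div, le_div_iff₀ hb0p]
    linarith
  -- small sets
  have hzero : ∀ T : Finset ℤ, T.card = B.card → E T = 0 := by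
    intro T hT
    obtain ⟨K, hK⟩ := hup T hT.ge
    let P : Polynomial ℝ := ∑ T1 ∈ T.powerset, Polynomial.C (e T1) * Polynomial.X ^ T1.card
    have hPe : ∀ t : ℝ, P.eval t = ∑ T1 ∈ T.powerset, e T1 * t ^ T1.card := by
      intro t
      simp [P, Polynomial.eval_finsetSum]
    have hdeg : P.natDegree < k := by
      have h1 : P.natDegree ≤ T.card := by
        apply Polynomial.natDegree_sum_le_of_forall_le
        intro T1 hT1
        refine (Polynomial.natDegree_C_mul_X_pow_le _ _).trans ?_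
        exact Finset.card_le_card (Finset.mem_powerset.1 hT1)
      omega
    have h1 := poly_zero P k hdeg K fun t ht => by
      rw [hPe]
      exact ⟨hp0 T t ht, hK t ht⟩
    have h2 := hPe 1
    rw [h1, Polynomial.eval_zero] at h2
    rw [he T]
    simpa using h2.symm
  have hzero' : ∀ T : Finset ℤ, T.card ≤ B.card → E T = 0 := by
    intro T hT
    obtain ⟨T', hTT', hT'⟩ := Infinite.exists_superset_card_eq T B.card hT
    exact le_antisymm ((hEmono T T' hTT').trans (hzero T' hT').le) (hE0 T)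
  have hgrow : ∀ T : Finset ℤ, ∃ K : ℝ, ∀ t : ℝ, 0 < t →
      0 ≤ ∑ T1 ∈ T.powerset, e T1 * t ^ T1.card ∧
        ∑ T1 ∈ T.powerset, e T1 * t ^ T1.card ≤ K * t ^ k := by
    intro T
    rcases Nat.lt_or_ge T.card B.card with h | h
    · -- all masses vanish
      have h1 : ∀ U, U ⊆ T → e U = 0 := by
        apply mobius_unique e (fun _ => 0) T
        intro U hU
        rw [← he U, hzero' U ((Finset.card_le_card hU).trans h.le)]
        simp
      refine ⟨0, fun t _ => ?_⟩
      have h2 : ∑ T1 ∈ T.powerset, e T1 * t ^ T1.card = 0 :=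
        Finset.sum_eq_zero fun T1 hT1 => by rw [h1 T1 (Finset.mem_powerset.1 hT1), zero_mul]
      rw [h2]
      simp
    · obtain ⟨K, hK⟩ := hup T h
      exact ⟨K, fun t ht => ⟨hp0 T t ht, hK t ht⟩⟩
  have hcard : ∀ T : Finset ℤ, T.card ≠ k → e T = 0 := by
    intro T hT
    exact hGROW e T k (fun T' _ => hgrow T') T (Finset.mem_powerset_self T) hT
  refine ⟨e, fun T => ?_, hcard, fun T => ?_⟩
  · by_cases h : T.card = k
    · have h1 := he T
      rw [powerset_eq, Finset.sum_insert (notMem_ssubsets T)] at h1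
      have h2 : ∑ x ∈ T.ssubsets, e x = 0 := by
        refine Finset.sum_eq_zero fun x hx => ?_
        apply hcard
        have := Finset.card_lt_card (Finset.mem_ssubsets.1 hx)
        omega
      rw [h2, add_zero] at h1
      rw [← h1]
      exact hE0 T
    · rw [hcard T h]
  · rw [← he T]
    exact hE T

end Pool.Agent.Y658.SR
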